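import Pool.Agent.Q52.Near.Main

/-!
Every finite outerplanar graph has a near-interval colouring.
-/

namespace Pool.Agent.Results.MP_3237b1_co.Outerplanar

/-- A graph is outerplanar when its vertices can be put in an order (equivalently, at distinct
points of a circle) so that no two edges interleave (equivalently, no two edges, drawn as chords of
the circle, cross). -/
def IsOuterplanar {V : Type*} (G : SimpleGraph V) : Prop :=
  ∃ σ : V → ℕ, Function.Injective σ ∧
    ∀ a b c d, G.Adj a c → G.Adj b d → ¬ (σ a < σ b ∧ σ b < σ c ∧ σ c < σ d)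

/-- `S` is a nonempty interval `{a, a + 1, ..., b}` of integers. -/
def IsInterval (S : Set ℤ) : Prop := ∃ a b : ℤ, a ≤ b ∧ S = Set.Icc a b

/-- `S` is an interval of integers with exactly one integer `m` removed, where
`min S < m < max S`. -/
def IsNearInterval (S : Set ℤ) : Prop :=
  ∃ a b m : ℤ, a < m ∧ m < b ∧ S = Set.Icc a b \ {m}

/-- The set of colours on the edges at `v`. -/
def colorsAt {V : Type*} (G : SimpleGraph V) (c : Sym2 V → ℤ) (v : V) : Set ℤ :=
  {k | ∃ u, G.Adj v u ∧ c s(v, u) = k}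

/-- A near-interval colouring (only the values of `c` on edges of `G` matter): adjacent edges get
different colours, and at every vertex with an incident edge the colours form an interval or a
near-interval. -/
def IsNearIntervalColoring {V : Type*} (G : SimpleGraph V) (c : Sym2 V → ℤ) : Prop :=
  (∀ v u u', G.Adj v u → G.Adj v u' → u ≠ u' → c s(v, u) ≠ c s(v, u')) ∧
  ∀ v, (∃ u, G.Adj v u) → IsInterval (colorsAt G c v) ∨ IsNearInterval (colorsAt G c v)

open Pool.Agent.Q52.Near in
theorem ni_cases {S : Set ℤ} (h : NI S) (hne : S.Nonempty) : IsInterval S ∨ IsNearInterval S := by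
  obtain ⟨lo, hi, m, hS⟩ := h
  obtain ⟨k0, hk0⟩ := hne
  have h0 := (hS k0).1 hk0
  by_cases h1 : lo < m ∧ m < hi
  · right
    refine ⟨lo, hi, m, h1.1, h1.2, ?_⟩
    ext k
    simp only [hS k, Set.mem_sdiff, Set.mem_Icc, Set.mem_singleton_iff, and_assoc, ne_eq]
  · left
    by_cases h2 : m = lo
    · refine ⟨lo + 1, hi, by omega, ?_⟩
      ext k
      rw [hS k, Set.mem_Icc]
      omega
    · by_cases h3 : m = hi
      · refine ⟨lo, hi - 1, by omega, ?_⟩
        ext k
        rw [hS k, Set.mem_Icc]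
        omega
      · refine ⟨lo, hi, by omega, ?_⟩
        ext k
        rw [hS k, Set.mem_Icc]
        omega

open Pool.Agent.Q52.Near in
/-- Every finite outerplanar graph has a near-interval colouring. -/
theorem result {V : Type*} [Finite V] (G : SimpleGraph V) (hG : IsOuterplanar G) :
    ∃ c : Sym2 V → ℤ, IsNearIntervalColoring G c := by
  classical
  have := Fintype.ofFinite V
  obtain ⟨σ, hσ, hcross⟩ := hG
  -- the edges on the line
  let E : ℕ → ℕ → Prop := fun a b => ∃ p q : V, σ p + 1 = a ∧ σ q + 1 = b ∧ G.Adj p q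
  have hEσ : ∀ p q : V, E (σ p + 1) (σ q + 1) ↔ G.Adj p q := by
    intro p q
    constructor
    · rintro ⟨p', q', h1, h2, h3⟩
      have e1 : p' = p := hσ (by omega)
      have e2 : q' = q := hσ (by omega)
      rwa [e1, e2] at h3
    · intro h; exact ⟨p, q, rfl, rfl, h⟩
  have hnc : ∀ a b c d, a < b → b < c → c < d → E a c → ¬ E b d := by
    rintro a b c d h1 h2 h3 ⟨p, q, rfl, rfl, hpq⟩ ⟨p', q', rfl, rfl, hpq'⟩
    exact hcross p p' q q' hpq hpq' ⟨by omega, by omega, by omega⟩
  obtain ⟨M, hM⟩ : ∃ M, ∀ v : V, σ v < M := by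
    obtain ⟨M, hM⟩ := (Set.finite_range σ).bddAbove
    exact ⟨M + 1, fun v => Nat.lt_succ_of_le (hM ⟨v, rfl⟩)⟩
  have hEb : ∀ a b, E a b → 0 < a ∧ a < M + 1 ∧ 0 < b ∧ b < M + 1 := by
    rintro a b ⟨p, q, rfl, rfl, -⟩
    have := hM p
    have := hM q
    omega
  have hra : ra E 0 (M + 1) = 0 := ra_zero fun u hc => by
    have := hEb _ _ hc
    omega
  have hla : la E 0 (M + 1) = 0 := la_zero fun u hc => by
    have := hEb _ _ hc
    omega
  obtain ⟨c, hc⟩ := main hnc M 0 (M + 1) (by omega) ∅ ∅ (by rw [hra, hla]; exact F_zero)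
  -- the colouring of the graph
  let f : V → V → ℤ := fun p q => c (min (σ p + 1) (σ q + 1)) (max (σ p + 1) (σ q + 1))
  have hf : ∀ p q, f p q = f q p := by
    intro p q
    simp only [f, min_comm, max_comm]
  have fl : ∀ p q, σ p < σ q → f p q = c (σ p + 1) (σ q + 1) := by
    intro p q h
    simp only [f]
    rw [min_eq_left (by omega), max_eq_right (by omega)]
  have fr : ∀ p q, σ q < σ p → f p q = c (σ q + 1) (σ p + 1) := by
    intro p q h
    rw [hf, fl q p h]
  refine ⟨Sym2.lift ⟨f, hf⟩, ?_, ?_⟩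
  · intro v u u' h1 h2 h3
    simp only [Sym2.lift_mk]
    have H := hc.mid (σ v + 1) (by omega) (by have := hM v; omega)
    have hu := hM u
    have hu' := hM u'
    have hne1 : σ u ≠ σ v := fun h => h1.ne (hσ h.symm)
    have hne2 : σ u' ≠ σ v := fun h => h2.ne (hσ h.symm)
    intro hcc
    rcases lt_or_gt_of_ne hne1 with h4 | h4 <;> rcases lt_or_gt_of_ne hne2 with h5 | h5
    · rw [fr v u h4, fr v u' h5] at hcc
      have := H.ll (σ u + 1) (σ u' + 1) (by omega) (by omega) ((hEσ u v).2 h1.symm) (by omega)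
        (by omega) ((hEσ u' v).2 h2.symm) hcc
      exact h3 (hσ (by omega))
    · rw [fr v u h4, fl v u' h5] at hcc
      exact H.lr (σ u + 1) (σ u' + 1) (by omega) (by omega) ((hEσ u v).2 h1.symm) (by omega)
        (by omega) ((hEσ v u').2 h2) hcc
    · rw [fl v u h4, fr v u' h5] at hcc
      exact H.lr (σ u' + 1) (σ u + 1) (by omega) (by omega) ((hEσ u' v).2 h2.symm) (by omega)
        (by omega) ((hEσ v u).2 h1) hcc.symm
    · rw [fl v u h4, fl v u' h5] at hcc
      have := H.rr (σ u + 1) (σ u' + 1) (by omega) (by omega) ((hEσ v u).2 h1) (by omega)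
        (by omega) ((hEσ v u').2 h2) hcc
      exact h3 (hσ (by omega))
  · rintro v ⟨u0, hu0⟩
    have H := hc.mid (σ v + 1) (by omega) (by have := hM v; omega)
    refine ni_cases ?_ ⟨_, u0, hu0, rfl⟩
    obtain ⟨lo, hi, m, hS⟩ := H.ni
    refine ⟨lo, hi, m, fun k => ?_⟩
    rw [← hS k]
    constructor
    · rintro ⟨u, h1, h2⟩
      simp only [Sym2.lift_mk] at h2
      have hne1 : σ u ≠ σ v := fun h => h1.ne (hσ h.symm)
      have hu := hM u
      rcases lt_or_gt_of_ne hne1 with h4 | h4
      · left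
        rw [fr v u h4] at h2
        exact ⟨σ u + 1, by omega, by omega, (hEσ u v).2 h1.symm, h2⟩
      · right
        rw [fl v u h4] at h2
        exact ⟨σ u + 1, by omega, by omega, (hEσ v u).2 h1, h2⟩
    · rintro (⟨w, q1, q2, ⟨p, q, rfl, q3, q4⟩, q5⟩ | ⟨w, q1, q2, ⟨p, q, q3, rfl, q4⟩, q5⟩)
      · have e1 : q = v := hσ (by omega)
        subst e1
        refine ⟨p, q4.symm, ?_⟩
        simp only [Sym2.lift_mk]
        rw [fr q p (by omega), q5]
      · have e1 : p = v := hσ (by omega)
        subst e1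
        refine ⟨q, q4, ?_⟩
        simp only [Sym2.lift_mk]
        rw [fl p q (by omega), q5]

end Pool.Agent.Results.MP_3237b1_co.Outerplanar
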